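import Mathlib
import Pool.Agent.W262.SQ.Fam2
import Pool.Agent.W262.SH.DefB
import Pool.Agent.W756.SH.Twi
import Pool.Agent.W736.SH.PHI
import Pool.Agent.W654.SHB.Rkk
import Pool.Agent.W305.SH.Abs
import Pool.Agent.W352.SH.Grp

/-!
# Elliptic curves over number fields varying with two parameters: ranks and 2-parts of `Ш`

Let `D_0, ..., D_l` be products of nonzero integers and of integral binary forms of degree one and
two, the quadratic ones irreducible, all of them pairwise non-proportional. For coprime integers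
`u`, `v` let `E_{u,v}` be the quadratic twist of `E : y² = x (x - A) (x - B)` by `D_0(u, v)` and
`K_{u,v} = ℚ(√D_1(u, v), ..., √D_l(u, v))`. The average of `2 ^ (e * (rank E_{u,v}(K_{u,v}) + r))`
over the coprime pairs in the squares `(U, U + X] × (V, V + X]` with `|U|, |V| ≤ X ^ L` is bounded
for every `e` and `L`, where `Ш(E_{u,v}/K_{u,v})` contains `(ℤ/2^(l+1))^r`.
-/

namespace Pool.Agent.Results.MP_9ab903_nt.BinaryFormFields

open Finset

open Pool.Agent.W262.SH (E KD ShaN Has rkN)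

/-- `D i (u, v) = b i * ∏ (α j * u + β j * v) * ∏ (p j * u ^ 2 + q j * u * v + s j * v ^ 2)`, the
products over the `j` with `g j = i` and with `h j = i` -/
def D {l m n : ℕ} (b : Fin (l + 1) → ℤ) (g : Fin m → Fin (l + 1)) (h : Fin n → Fin (l + 1))
    (α β : Fin m → ℤ) (p q s : Fin n → ℤ) (t : ℤ × ℤ) (i : Fin (l + 1)) : ℤ :=
  b i * ((∏ j ∈ univ.filter (fun j => g j = i), (α j * t.1 + β j * t.2)) *
    ∏ j ∈ univ.filter (fun j => h j = i), (p j * t.1 ^ 2 + q j * (t.1 * t.2) + s j * t.2 ^ 2))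

/-- the quadratic twist of `y² = x (x - A) (x - B)` by `d` -/
def Tw (A B d : ℤ) : WeierstrassCurve ℚ := E (d * A) (d * B)

theorem D_eq {l m n : ℕ} (b : Fin (l + 1) → ℤ) (g : Fin m → Fin (l + 1))
    (h : Fin n → Fin (l + 1)) (α β : Fin m → ℤ) (p q s : Fin n → ℤ) :
    Pool.Agent.W262.SQ.Db b g h α β p q s = D b g h α β p q s := rfl

theorem prod_insert {l : ℕ} (f : Fin (l + 1) → ℤ) (s : Finset (Fin l)) :
    ∏ i ∈ insert 0 (s.image Fin.succ), f i = (∏ i ∈ s, f i.succ) * f 0 := by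
  rw [Finset.prod_insert (by
    rw [mem_image]
    rintro ⟨i, _, hi⟩
    exact Fin.succ_ne_zero i hi), prod_image (fun i _ j _ hij => Fin.succ_injective _ hij),
    mul_comm]

/-- The averages of `2 ^ (e * (rank E_t(K_t) + r t))` over the coprime pairs `t` of short squares
are bounded. -/
theorem result (l m n : ℕ) (A B : ℤ) (b : Fin (l + 1) → ℤ) (g : Fin m → Fin (l + 1))
    (h : Fin n → Fin (l + 1)) (α β : Fin m → ℤ) (p q s : Fin n → ℤ)
    (hA : A ≠ 0) (hB : B ≠ 0) (hAB : A ≠ B) (hb : ∀ i, b i ≠ 0)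
    (h0 : ∀ i, α i ≠ 0 ∨ β i ≠ 0) (h1 : ∀ i j, i ≠ j → α i * β j ≠ α j * β i)
    (h2 : ∀ j, ¬ IsSquare (q j ^ 2 - 4 * p j * s j))
    (h3 : ∀ i j, i ≠ j → ¬ (p i * q j = p j * q i ∧ p i * s j = p j * s i ∧ q i * s j = q j * s i))
    (e L : ℕ) :
    ∃ C : ℝ, ∀ r : ℤ × ℤ → ℕ,
      (∀ t, (∀ i, D b g h α β p q s t i ≠ 0) →
        Has (ShaN (Tw A B (D b g h α β p q s t 0))
          (KD fun i : Fin l => D b g h α β p q s t i.succ)) (2 ^ (l + 1)) (r t)) →
      ∀ (U V : ℤ) (X : ℕ), 1 ≤ X → |U| ≤ (X : ℤ) ^ L → |V| ≤ (X : ℤ) ^ L →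
      ∑ t ∈ (Ioc U (U + X) ×ˢ Ioc V (V + X)).filter
        (fun t : ℤ × ℤ => IsCoprime t.1 t.2 ∧ ∀ i, D b g h α β p q s t i ≠ 0),
        (2 : ℝ) ^ (e * (rkN (Tw A B (D b g h α β p q s t 0))
          (KD fun i : Fin l => D b g h α β p q s t i.succ) + r t)) ≤ C * (X : ℝ) ^ 2 := by
  have hT : Pool.Agent.W262.SH.TWI := Pool.Agent.W756.SH.Twi.twi
  have hP : Pool.Agent.W262.SH.PHI := Pool.Agent.W736.SH.PHI.phi Pool.Agent.W305.SH.absc hT
  have hR : Pool.Agent.W262.SH.RKK := Pool.Agent.W654.SHB.rkk hT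
  obtain ⟨C, -, hC⟩ := Pool.Agent.W262.SQ.sC (max e 1 * 2 ^ l)
    (Nat.one_le_iff_ne_zero.2 (Nat.mul_ne_zero (by omega) (by positivity))) A B b g h α β p q s
    ⟨h1, h0, h2, h3⟩ hA hB hAB hb L
  refine ⟨2 ^ l * C, fun r hr U V X hX hU hV => ?_⟩
  have hne : ∀ t ∈ (Ioc U (U + X) ×ˢ Ioc V (V + X)).filter
      (fun t : ℤ × ℤ => IsCoprime t.1 t.2 ∧ ∀ i, D b g h α β p q s t i ≠ 0),
      ∀ i, D b g h α β p q s t i ≠ 0 := fun t ht => (mem_filter.1 ht).2.2
  have key := Pool.Agent.W262.SQ.sumB hP Pool.Agent.W352.SH.grp hR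
    ((Ioc U (U + X) ×ˢ Ioc V (V + X)).filter
      (fun t : ℤ × ℤ => IsCoprime t.1 t.2 ∧ ∀ i, D b g h α β p q s t i ≠ 0))
    (fun t => D b g h α β p q s t 0 * A) (fun t => D b g h α β p q s t 0 * B)
    (fun t i => D b g h α β p q s t i.succ) (C * (X : ℝ) ^ 2) (max e 1) r
    (fun t ht => mul_ne_zero (hne t ht 0) hA) (fun t ht => mul_ne_zero (hne t ht 0) hB)
    (fun t ht h' => hAB (mul_left_cancel₀ (hne t ht 0) h'))
    (fun t ht i => hne t ht i.succ)
    (fun t ht => (Pool.Agent.W262.SH.has_shaN _ _ _ _).1 (hr t (hne t ht)))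
    (fun S => by
      have h4 := hC (U, V, X) ⟨hX, hU, hV⟩ (insert 0 (S.image Fin.succ))
      rw [D_eq] at h4
      simp only [prod_insert] at h4
      simp only [← mul_assoc]
      convert h4)
  rw [← mul_assoc] at key
  refine le_trans (sum_le_sum fun t _ => ?_) key
  refine le_trans (pow_le_pow_right₀ (by norm_num) (Nat.mul_le_mul_right _ (le_max_left e 1)))
    (le_of_eq ?_)
  exact congrArg (fun n : ℕ => (2 : ℝ) ^ (max e 1 * (n + r t)))
    (Pool.Agent.W262.SH.rkN_eq _ _ _ _)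

end Pool.Agent.Results.MP_9ab903_nt.BinaryFormFields
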