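import Pool.Agent.W189.NF.Main

/-!
# Strong Birch and Swinnerton-Dyer over number fields as an asymptotic law for point counts

Let `E` be an elliptic curve over a number field `K` and let `F` be any continuation of its
Hasse-Weil `L`-series `E.LSeries` (the `L`-series of Mathlib, defined from minimal equations at all
the places) along the real axis, meromorphic at the real points of `[1, 2]`. Write `q_v` for the norm
of a prime `v`, `α_v^k + β_v^k` for the power sums of the inverse roots of the local polynomial
(`= q_v^k + 1 - #Ẽ(𝔽_{q_v^k})` at good places by Weil's theorem; `1`, `(-1)^k`, `0` at places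
of split multiplicative, non-split multiplicative, additive reduction). For `T > 0` put

`S(T) = ∑_{v, k ≥ 1} -(α_v^k + β_v^k) / (k q_v^k Γ(1 + k log q_v / T))`.

The series converges absolutely, with no hypothesis. It is a smooth version of the
logarithm of `∏_{q_v ≤ X} #Ẽ(k_v)/q_v`, `T = log X`. With a sharp cut-off such a product is far deeper
than the conjecture (Goldfeld 1982). For the smooth version the following
is proved, with `κ = ∫_0^∞ (e^{-t} - 1/Γ(1+t)) dt/t` and `g(y) = ∫_0^∞ (e^{yu} - 1) du/(u Γ(1+u))`.

* If `F` has no real zero or pole `> 1`, then, with `m ∈ ℤ` the order and `λ` the leading Laurent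
  coefficient of `F` at `s = 1`, `λ > 0` and `S(T) = m (log T - κ) - log λ + O(1/T)`.
* If `F` has real zeros or poles `> 1`, let `β` be the largest one and `m` its order
  (negative for a pole): `S(T) / g((β - 1) T) → m`, and `|S(T)| ≥ exp(exp(yT))` for every
  `y < β - 1` and large `T`.
* For every real `B > 0`: `S(T) - rk E(K) log T` tends to `- rk E(K) κ - log B` if and only if
  `F` has no real zero or pole `> 1`, its order at `1` is the rank of `E(K)`, and its
  leading coefficient is `B`. In particular, with `B = Ω Reg |Sha| ∏ c_v / (√|Δ_K| |tors|²)`, the strong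
  Birch and Swinnerton-Dyer formula over `K`, for curves without real zeros or poles `> 1`, is exactly
  this asymptotic formula for the numbers of points modulo the primes of `K`.
-/

set_option autoImplicit false

namespace Pool.Agent.Results.MP_9ab903_nt.MittagLefflerNumberField

open Filter Topology Pool.Agent.W189.NF Pool.Agent.W189.LC Pool.Agent.W189.ML

open Classical in
/-- the rank of the group of rational points -/
noncomputable def rank {K : Type} [Field K] (E : WeierstrassCurve K) : ℕ :=
  Module.finrank ℤ E.toAffine.Point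

/-- **Strong BSD over number fields as an asymptotic law for point counts.** -/
theorem result {K : Type} [Field K] [NumberField K] (E : WeierstrassCurve K) [E.IsElliptic]
    (F : ℂ → ℂ) (hF : IsCont E F) :
    (∀ T : ℝ, 0 < T → Summable fun x => |bsTerm E T x|) ∧
    ((∀ σ : ℝ, 1 < σ → meromorphicOrderAt F (σ : ℂ) = 0) → ∃ (m : ℤ) (l : ℝ),
      meromorphicOrderAt F 1 = m ∧ meromorphicTrailingCoeffAt F 1 = l ∧ 0 < l ∧
      (fun T : ℝ => bsSum E T - (m * (Real.log T - kap) - Real.log l)) =O[atTop]
        fun T : ℝ => 1 / T) ∧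
    ((∃ σ : ℝ, 1 < σ ∧ meromorphicOrderAt F (σ : ℂ) ≠ 0) → ∃ (β : ℝ) (m : ℤ), 1 < β ∧ m ≠ 0 ∧
      meromorphicOrderAt F (β : ℂ) = m ∧
      (∀ σ : ℝ, β < σ → meromorphicOrderAt F (σ : ℂ) = 0) ∧
      Tendsto (fun T : ℝ => bsSum E T / grow ((β - 1) * T)) atTop (𝓝 m) ∧
      ∀ y < β - 1, ∀ᶠ T : ℝ in atTop, Real.exp (Real.exp (y * T)) ≤ |bsSum E T|) ∧
    ∀ B : ℝ, 0 < B →
      (((∀ σ : ℝ, 1 < σ → meromorphicOrderAt F (σ : ℂ) = 0) ∧
        meromorphicOrderAt F 1 = ((rank E : ℤ) : WithTop ℤ) ∧
        meromorphicTrailingCoeffAt F 1 = B) ↔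
      Tendsto (fun T : ℝ => bsSum E T - rank E * Real.log T) atTop
        (𝓝 (-(rank E * kap) - Real.log B))) := by
  obtain ⟨h1, h2, h3, h4⟩ := nf_main hF
  exact ⟨h1, h2, h3, fun B hB => h4 (rank E) B hB⟩

end Pool.Agent.Results.MP_9ab903_nt.MittagLefflerNumberField
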