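import Pool.Agent.W76.BK.NFR

/-!
# An unconditional numerical form of strong Birch and Swinnerton-Dyer over number fields

Let `E` be an elliptic curve over a number field `K` and let `F` be any continuation of its
Hasse-Weil `L`-series `E.LSeries` (the `L`-series of Mathlib, defined from minimal equations at all
the places) along the real axis, meromorphic at the real points of `[1, 2]`. Write `q_v` for the norm
of a prime `v`, `α_v^k + β_v^k` for the power sums of the inverse roots of the local polynomial
(`= q_v^k + 1 - #Ẽ(𝔽_{q_v^k})` at good places by Weil's theorem; `1`, `(-1)^k`, `0` at places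
of split multiplicative, non-split multiplicative, additive reduction). For `T > 0` put

`S(T) = ∑_{v, k ≥ 1} -(α_v^k + β_v^k) / (k q_v^k Γ(1 + (1 + i/√T) k log q_v / T))`.

The series converges absolutely, with no hypothesis, and its weights tend to `1`; `exp(S(T))`
is a smooth version of `∏_{q_v ≤ X} #Ẽ(k_v)/q_v`, `T = log X`. For EVERY `E`, with `m ∈ ℤ` the order and
`λ` the leading Laurent coefficient of `F` at `s = 1`, and `κ = ∫_0^∞ (e^{-t} - 1/Γ(1+t)) dt/t`:

* `exp(S(T)) / (e^{-κ} T)^m → 1/λ`; more precisely
  `S(T) - m (log T - κ) → - log |λ| - iπ n`, `n` the number of real zeros minus the number of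
  real poles of `F` to the right of `1`, with multiplicity;
* so for every real `B ≠ 0`: `F` has order `rk E(K)` and leading coefficient `B` at `s = 1` IF AND ONLY IF
  `exp(S(T)) / (e^{-κ} T)^{rk E(K)} → 1/B`.

With `B = Ω Reg |Sha| ∏ c_v / (√|Δ_K| |tors|²)` this says that the rank part and the value part of the
strong conjecture hold for `E` if and only if the numbers of points of `E` over the finite fields
satisfy an explicit asymptotic law, without any assumption on the zeros and poles of the
`L`-function (with real weights `1/Γ(1 + v)` the same is true only in the absence of real zeros and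
poles to the right of `1`; with sharp cut-offs one needs the Riemann hypothesis and more).

Idea: `1/Γ(1 + κ v) = (2πi)⁻¹ ∫ exp(e^z) e^{-κ z v} dz` along the boundary of a half strip
`Re z ≥ a, |Im z| ≤ π`; the strip is rotated by the angle `1/√T` about the point `1` and so thin
that it passes above all real zeros and poles, and below all others.
-/

set_option autoImplicit false

namespace Pool.Agent.Results.MP_9ab903_nt.UnconditionalNumericalForm

open Filter Topology Pool.Agent.W189.NF Pool.Agent.W189.LC Pool.Agent.W76.BK.NF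

open Classical in
/-- the rank of the group of rational points -/
noncomputable def rank {K : Type} [Field K] (E : WeierstrassCurve K) : ℕ :=
  Module.finrank ℤ E.toAffine.Point

/-- **Strong BSD over number fields as an asymptotic law for point counts, for every curve.** -/
theorem result {K : Type} [Field K] [NumberField K] (E : WeierstrassCurve K) [E.IsElliptic]
    (F : ℂ → ℂ) (hF : IsCont E F) :
    (∀ T : ℝ, 0 < T → Summable fun x => ‖rotTerm E T x‖) ∧
    (∃ (m : ℤ) (l : ℝ) (Z : Finset ℝ) (k : ℝ → ℤ), meromorphicOrderAt F 1 = m ∧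
      meromorphicTrailingCoeffAt F 1 = l ∧ l ≠ 0 ∧
      (∀ σ : ℝ, σ ∈ Z ↔ 1 < σ ∧ meromorphicOrderAt F (σ : ℂ) ≠ 0) ∧
      (∀ σ ∈ Z, meromorphicOrderAt F (σ : ℂ) = k σ) ∧
      Tendsto (fun T : ℝ => rotSum E T - m * (Real.log T - kap)) atTop
        (𝓝 (-(Real.log |l| : ℝ) - (∑ σ ∈ Z, (k σ : ℂ)) * Real.pi * Complex.I)) ∧
      Tendsto (fun T : ℝ => Complex.exp (rotSum E T) / ((Real.exp (-kap) * T : ℝ) : ℂ) ^ m) atTop
        (𝓝 ((l : ℂ))⁻¹)) ∧
    ∀ B : ℝ, B ≠ 0 →
      ((meromorphicOrderAt F 1 = ((rank E : ℤ) : WithTop ℤ) ∧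
        meromorphicTrailingCoeffAt F 1 = B) ↔
      Tendsto (fun T : ℝ => Complex.exp (rotSum E T) /
        ((Real.exp (-kap) * T : ℝ) : ℂ) ^ (rank E)) atTop (𝓝 ((B : ℂ))⁻¹)) := by
  obtain ⟨m, l, Z, k, h1, h2, h3, h4, h4', h5, h6, h7⟩ := nf_rot hF
  exact ⟨fun T hT => rotTerm_summable E hT, ⟨m, l, Z, k, h1, h2, h3, h4, h4', h5, h6⟩,
    fun B hB => h7 (rank E) B hB⟩

end Pool.Agent.Results.MP_9ab903_nt.UnconditionalNumericalForm
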